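import Pool.Agent.Work.MP_1ce82a_an.U.Final

/-! On a torus there is a smooth Lagrangian for which the hyperbolic region fails to have full
measure for every potential of a nonempty open set. -/

open Set Filter Topology MeasureTheory
open scoped ContDiff

namespace Pool.Agent.Work.MP_1ce82a_an.W

open Pool.Agent.Work.MP_1ce82a_an.K Pool.Agent.Work.MP_1ce82a_an.U

theorem kam_open {G : Type} [Group G] [MulAction G E] (hT : S.IsTorus G) :
    ∃ L : E × E → ℝ, ContDiff ℝ ∞ L ∧ S.Tonelli G L ∧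
      ¬ Dense {f : S.Cinf G | S.Full {c : G → ℝ | c ∈ S.Uset (addPot L f.1)}} := by
  obtain ⟨Φ, τ, a1, a2, a3, a4⟩ := hT
  have hτ : Cj Φ τ := ⟨a1, a2, a3, a4⟩
  obtain ⟨l, r, hr0, hr1, hl, hc, hs, hP⟩ := lag
  refine ⟨pb Φ fun z => l z.2, hτ.smooth hl, hτ.tonelli hl hc hs, fun hres => ?_⟩
  have hr2 : 0 < r / 2 := half_pos hr0
  obtain ⟨γ, hγ, hD⟩ := dio_pos hr2
  obtain ⟨δ, hδ, hk⟩ := kam_real hγ hr2
  have hδ' : 0 < min (r / 2) (δ / (2 + 2 ^ 32)) := lt_min hr2 (by positivity)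
  obtain ⟨O, hO, hne, hf⟩ := hτ.nbhd 32 hδ'
  obtain ⟨f0, hf1, hf2⟩ := hres.inter_open_nonempty O hO hne
  have hj' := hf f0 hf1
  have pf := hτ.per f0
  have sf : ContDiff ℝ ∞ fun y => f0.1 (Φ.symm y) := f0.2.1.comp a2
  have e0 : addPot (pb Φ fun z => l z.2) f0.1 =
      pb Φ (addPot (fun z => l z.2) fun y => f0.1 (Φ.symm y)) := by
    funext z
    simp only [addPot, pb, Equiv.symm_apply_apply]
  rw [mem_setOf_eq, e0] at hf2
  generalize (fun y => f0.1 (Φ.symm y)) = f at hj' pf sf hf2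
  have bf : ∀ x, |f x| ≤ r / 2 := fun x => by
    have h1 := (hj' 0 (Nat.zero_le _) x).trans (min_le_left _ _)
    rwa [norm_iteratedFDeriv_zero, Real.norm_eq_abs] at h1
  have key : ∀ En ρ : ℝ, ∃ c, |En| ≤ r / 2 → |ρ| ≤ r / 2 ∧ Dio γ ρ →
      Nonempty (Dat (addPot (fun z => l z.2) f) En ρ c) := by
    intro En ρ
    by_cases h1 : |En| ≤ r / 2 ∧ |ρ| ≤ r / 2 ∧ Dio γ ρ
    · obtain ⟨h1, h2, h3⟩ := h1
      have hg : ContDiff ℝ ∞ fun y => (En + f y) - (En + f y) ^ 2 / 2 :=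
        (contDiff_const.add sf).sub (((contDiff_const.add sf).pow 2).div_const 2)
      obtain ⟨U, u1, u2, u3, u4⟩ := hk ρ _ h3 (by linarith) hg
        ⟨fun x => by simp only [pf.1 x], fun x => by simp only [pf.2 x]⟩ (fun x => by
          refine (gjet sf (by norm_num) ((min_le_left _ _).trans (by linarith))
            (by linarith) hj' x).trans ?_
          rw [← le_div_iff₀' (by positivity)]
          exact min_le_right _ _)
      obtain ⟨c, hc⟩ := hj hr1 hP sf pf bf h1 h2 u1 u2 u3 u4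
      exact ⟨c, fun _ _ => hc⟩
    · exact ⟨0, fun h2 h3 => absurd ⟨h2, h3⟩ h1⟩
  choose c hc using key
  have hI : volume {e : ℝ | |e| ≤ r / 2} ≠ 0 := by
    have h1 : {e : ℝ | |e| ≤ r / 2} = Icc (-(r / 2)) (r / 2) := by
      ext e
      simp only [mem_setOf_eq, mem_Icc, abs_le]
    rw [h1, Real.volume_Icc]
    exact (ENNReal.ofReal_pos.2 (by linarith)).ne'
  refine not_null hI hD (c := c) (K := 72) ?_ ?_ ?_
  · intro e he ρ hρ ρ' hρ'
    obtain ⟨D₁⟩ := hc e ρ he hρ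
    obtain ⟨D₂⟩ := hc e ρ' he hρ'
    exact lip_rho D₁ D₂
  · intro e he e' he' ρ hρ ρ' hρ'
    obtain ⟨D₁⟩ := hc e ρ he hρ
    obtain ⟨D₂⟩ := hc e' ρ' he' hρ'
    have h1 := lip_en D₁ D₂ (hρ.1.trans (by linarith)) (hρ'.1.trans (by linarith))
    linarith [norm_nonneg (c e ρ - c e' ρ')]
  · refine measure_mono_null ?_ (hτ.full_ae hf2)
    rintro x ⟨e, he, ρ, hρ, rfl⟩
    obtain ⟨D⟩ := hc e ρ he hρ
    exact hτ.not_U D

theorem three_way {G : Type} [Group G] [MulAction G E] (hS : S.Surf G) :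
    List.TFAE [¬ S.IsTorus G,
      ∀ L : E × E → ℝ, S.Tonelli G L → (S.Orient G ∨ ContDiff ℝ 3 L) →
        ∀ᶠ f in residual (S.Cinf G), S.Full {c : G → ℝ | c ∈ S.Uset (addPot L f.1)},
      ∀ L : E × E → ℝ, S.Tonelli G L → ContDiff ℝ ∞ L →
        Dense {f : S.Cinf G | S.Full {c : G → ℝ | c ∈ S.Uset (addPot L f.1)}}] := by
  tfae_have 1 → 2 := (classification hS).1
  tfae_have 2 → 3 := fun h L hL hs => by
    have := baire G
    exact dense_of_mem_residual (h L hL (Or.inr (contDiff_infty.1 hs 3)))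
  tfae_have 3 → 1 := fun h hT => by
    obtain ⟨L, h1, h2, h3⟩ := kam_open hT
    exact h3 (h L h2 h1)
  tfae_finish

end Pool.Agent.Work.MP_1ce82a_an.W
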